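import Pool.Agent.Helper19.Qh.Stmts

set_option autoImplicit false

/-!
# The lowest Landau level bound
-/

namespace Pool.Agent.Helper19.Qh

open MeasureTheory Topology Set
open scoped ComplexConjugate

noncomputable section

variable {m : ℕ}

/-! ### Linear maps -/

/-- `y ↦ ⟨e, y⟩` as a real continuous linear map -/
def land_hr (e : E m) : E m →L[ℝ] Q :=
  LinearMap.mkContinuous
    { toFun := fun y => hin e y
      map_add' := fun y z => hin_add_right e y z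
      map_smul' := fun c y => hin_rsmul_right c e y } ‖e‖ (fun y => norm_hin_le e y)

theorem land_hr_apply (e y : E m) : land_hr e y = hin e y := rfl

/-- `x ↦ ⟨x, b⟩` as a real continuous linear map -/
def land_hl (b : E m) : E m →L[ℝ] Q :=
  LinearMap.mkContinuous
    { toFun := fun x => hin x b
      map_add' := fun y z => hin_add_left y z b
      map_smul' := fun c y => hin_rsmul_left c y b } ‖b‖
      (fun x => (norm_hin_le x b).trans (le_of_eq (mul_comm _ _)))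

theorem land_hl_apply (b x : E m) : land_hl b x = hin x b := rfl

/-! ### Invariance -/

theorem land_act_mem {a : Q} {b : E m} (h : 2 * a.re + ‖b‖ ^ 2 = 0) {p : Pt m}
    (hp : p ∈ SD m) : act (T a b) p ∈ SD m := act_mem (T_mem_UG h) hp

theorem land_hasFDerivAt_act (a : Q) (b : E m) (p : Pt m) : HasFDerivAt (act (T a b))
    ((ContinuousLinearMap.fst ℝ Q (E m) -
        ((land_hl b).comp (ContinuousLinearMap.snd ℝ Q (E m)))).prod
      (ContinuousLinearMap.snd ℝ Q (E m))) p := by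
  have h1 : act (T a b) = fun p : Pt m => (p.1 - land_hl b p.2 + a, p.2 + b) := by
    funext p
    exact act_T a b p
  rw [h1]
  apply HasFDerivAt.prodMk
  · refine HasFDerivAt.add_const a (HasFDerivAt.sub hasFDerivAt_fst ?_)
    exact (land_hl b).hasFDerivAt.comp p hasFDerivAt_snd
  · exact hasFDerivAt_snd.add_const b

theorem land_fderiv_inv {N : Q → E m → Prop} {β : Fin (4 * m) → E m} {γ : Fin 3 → Q}
    (hN : Cusp N β γ)
    {ψ : Pt m → ℂ} (hψ : ContDiffOn ℝ 1 ψ (SD m)) (hi : Per N ψ) {a : Q} {b : E m}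
    (hab : N a b) {p : Pt m} (hp : p ∈ SD m) (v : Pt m) :
    fderiv ℝ ψ (act (T a b) p) (v.1 - hin v.2 b, v.2) = fderiv ℝ ψ p v := by
  have h1 : (fun q => ψ (act (T a b) q)) =ᶠ[𝓝 p] ψ := by
    filter_upwards [isOpen_SD.mem_nhds hp] with q hq
    exact hi a b hab q hq
  have h2 : HasFDerivAt ψ (fderiv ℝ ψ (act (T a b) p)) (act (T a b) p) :=
    ((hψ.contDiffAt (isOpen_SD.mem_nhds (land_act_mem (hN.norm a b hab) hp))).differentiableAt
      (by norm_num)).hasFDerivAt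
  have h3 := h2.comp p (land_hasFDerivAt_act a b p)
  rw [← h1.fderiv_eq]
  have h4 : fderiv ℝ (fun q => ψ (act (T a b) q)) p = _ := h3.fderiv
  rw [h4]
  rfl

theorem land_per_xx {N : Q → E m → Prop} {β : Fin (4 * m) → E m} {γ : Fin 3 → Q}
    (hN : Cusp N β γ)
    {ψ : Pt m → ℂ} (hψ : ContDiffOn ℝ 1 ψ (SD m)) (hi : Per N ψ) (e : E m) :
    Per N (XX e ψ) := by
  intro a b hab p hp
  unfold XX
  rw [← land_fderiv_inv hN hψ hi hab hp (-hin e p.2, e), act_T]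
  congr 1
  refine Prod.ext ?_ rfl
  simp only [hin_add_right]
  abel

/-! ### Smoothness -/

theorem land_contDiff_field (e : E m) :
    ContDiff ℝ 1 (fun p : Pt m => ((-hin e p.2, e) : Pt m)) := by
  have h1 : ContDiff ℝ 1 (fun p : Pt m => land_hr e p.2) :=
    (land_hr e).contDiff.comp contDiff_snd
  exact ContDiff.prodMk h1.neg contDiff_const

theorem land_c1_xx {φ : Pt m → ℂ} (hφ : ContDiffOn ℝ 2 φ (SD m)) (e : E m) :
    ContDiffOn ℝ 1 (XX e φ) (SD m) :=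
  (hφ.fderiv_of_isOpen isOpen_SD (by norm_num)).clm_apply (land_contDiff_field e).contDiffOn

theorem land_c0_xx {φ : Pt m → ℂ} (hφ : ContDiffOn ℝ 1 φ (SD m)) (e : E m) :
    ContinuousOn (XX e φ) (SD m) :=
  (hφ.continuousOn_fderiv_of_isOpen isOpen_SD le_rfl).clm_apply
    (land_contDiff_field e).continuous.continuousOn

theorem land_cellpt_mem (β : Fin (4 * m) → E m) {γ : Fin 3 → Q} (hγ : ∀ j, (γ j).re = 0)
    (x : (Fin (4 * m) → ℝ) × (Fin 3 → ℝ)) {u : ℝ} (hu : 0 < u) : cellpt β γ x u ∈ SD m := by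
  change 0 < hgt (cellpt β γ x u)
  rw [hgt_cellpt β hγ]
  exact hu

theorem land_continuous_cellpt (β : Fin (4 * m) → E m) (γ : Fin 3 → Q) (u : ℝ) :
    Continuous (fun x : (Fin (4 * m) → ℝ) × (Fin 3 → ℝ) => cellpt β γ x u) := by
  unfold cellpt
  have h1 : Continuous (fun x : (Fin (4 * m) → ℝ) × (Fin 3 → ℝ) => ∑ i, x.1 i • β i) := by
    fun_prop
  have h2 : Continuous (fun x : (Fin (4 * m) → ℝ) × (Fin 3 → ℝ) => ∑ j, x.2 j • γ j) := by
    fun_prop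
  refine Continuous.prodMk (Continuous.add ?_ h2) h1
  refine Quaternion.continuous_coe.comp ?_
  exact ((continuous_const.add (h1.norm.pow 2)).neg).div_const 2

theorem land_continuous_lf (β : Fin (4 * m) → E m) {γ : Fin 3 → Q} (hγ : ∀ j, (γ j).re = 0)
    {u : ℝ} (hu : 0 < u) {φ : Pt m → ℂ}
    (hφ : ContinuousOn φ (SD m)) : Continuous (fun x => φ (cellpt β γ x u)) :=
  hφ.comp_continuous (land_continuous_cellpt β γ u) fun x => land_cellpt_mem β hγ x hu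

/-- the commutator of the horizontal fields -/
theorem land_commutator {φ : Pt m → ℂ} (hφ : ContDiffOn ℝ 2 φ (SD m)) {p : Pt m}
    (hp : p ∈ SD m) (e e' : E m) :
    XX e (XX e' φ) p - XX e' (XX e φ) p = pd (hin e e' - hin e' e, 0) φ p := by
  have hnh := isOpen_SD.mem_nhds hp
  have h1 : ContDiffAt ℝ 2 φ p := hφ.contDiffAt hnh
  have h2 : HasFDerivAt (fderiv ℝ φ) (fderiv ℝ (fderiv ℝ φ) p) p := by
    have h3 : ContDiffAt ℝ 1 (fderiv ℝ φ) p := h1.fderiv_right (by norm_num)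
    exact (h3.differentiableAt (by norm_num)).hasFDerivAt
  have hsym : ∀ v w : Pt m, fderiv ℝ (fderiv ℝ φ) p v w = fderiv ℝ (fderiv ℝ φ) p w v := by
    intro v w
    exact (h1.isSymmSndFDerivAt (by simp)) v w
  have hX : ∀ e : E m, HasFDerivAt (fun q : Pt m => ((-hin e q.2, e) : Pt m))
      ((-((land_hr e).comp (ContinuousLinearMap.snd ℝ Q (E m)))).prod 0) p := by
    intro e
    have h3 : HasFDerivAt (fun q : Pt m => land_hr e q.2)
        ((land_hr e).comp (ContinuousLinearMap.snd ℝ Q (E m))) p :=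
      (land_hr e).hasFDerivAt.comp p hasFDerivAt_snd
    exact h3.neg.prodMk (hasFDerivAt_const _ _)
  have e1 : ∀ e e' : E m, XX e (XX e' φ) p = fderiv ℝ (fderiv ℝ φ) p (-hin e p.2, e)
      (-hin e' p.2, e') + fderiv ℝ φ p (-hin e' e, 0) := by
    intro e e'
    have h4 : fderiv ℝ (XX e' φ) p = _ := (h2.clm_apply (hX e')).fderiv
    unfold XX
    unfold XX at h4
    rw [h4]
    simp only [add_apply, ContinuousLinearMap.comp_apply,
      ContinuousLinearMap.flip_apply, ContinuousLinearMap.prod_apply,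
      neg_apply, ContinuousLinearMap.coe_snd', land_hr_apply,
      zero_apply]
    rw [add_comm]
  rw [e1 e e', e1 e' e, hsym (-hin e p.2, e) (-hin e' p.2, e')]
  unfold pd
  have e3 : fderiv ℝ φ p (hin e e' - hin e' e, 0)
      = fderiv ℝ φ p (-hin e' e, 0) - fderiv ℝ φ p (-hin e e', 0) := by
    rw [← map_sub]
    congr 1
    refine Prod.ext ?_ ?_
    · change hin e e' - hin e' e = -hin e' e - -hin e e'
      abel
    · change (0 : E m) = 0 - 0
      simp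
  rw [e3]
  ring

/-! ### Products -/

theorem land_conj_contDiffOn {φ : Pt m → ℂ} (hφ : ContDiffOn ℝ 1 φ (SD m)) :
    ContDiffOn ℝ 1 (fun p => conj (φ p)) (SD m) :=
  (Complex.conjCLE : ℂ →L[ℝ] ℂ).contDiff.comp_contDiffOn hφ

theorem land_fderiv_prod {φ ψ : Pt m → ℂ} (hφ : ContDiffOn ℝ 1 φ (SD m))
    (hψ : ContDiffOn ℝ 1 ψ (SD m)) {p : Pt m} (hp : p ∈ SD m) (v : Pt m) :
    fderiv ℝ (fun q => conj (φ q) * ψ q) p v
      = conj (fderiv ℝ φ p v) * ψ p + conj (φ p) * fderiv ℝ ψ p v := by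
  have hnh := isOpen_SD.mem_nhds hp
  have h1 : HasFDerivAt φ (fderiv ℝ φ p) p :=
    ((hφ.contDiffAt hnh).differentiableAt one_ne_zero).hasFDerivAt
  have h2 : HasFDerivAt ψ (fderiv ℝ ψ p) p :=
    ((hψ.contDiffAt hnh).differentiableAt one_ne_zero).hasFDerivAt
  have h3 : HasFDerivAt (fun q => conj (φ q))
      ((Complex.conjCLE : ℂ →L[ℝ] ℂ).comp (fderiv ℝ φ p)) p :=
    (Complex.conjCLE : ℂ →L[ℝ] ℂ).hasFDerivAt.comp p h1
  have h4 : fderiv ℝ (fun q => conj (φ q) * ψ q) p = _ := (h3.mul h2).fderiv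
  rw [h4]
  simp
  ring

theorem land_parts (hdiv : ST_DIV) {N : Q → E m → Prop} {β : Fin (4 * m) → E m}
    {γ : Fin 3 → Q}
    (hN : Cusp N β γ) {φ ψ : Pt m → ℂ} (hφ : ContDiffOn ℝ 1 φ (SD m)) (hφi : Per N φ)
    (hψ : ContDiffOn ℝ 1 ψ (SD m)) (hψi : Per N ψ) {u : ℝ} (hu : 0 < u) (e : E m) :
    ∫ x in Icc (0 : (Fin (4 * m) → ℝ) × (Fin 3 → ℝ)) 1, (conj (XX e φ (cellpt β γ x u)) *
      ψ (cellpt β γ x u) + conj (φ (cellpt β γ x u)) * XX e ψ (cellpt β γ x u)) = 0 := by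
  have h := hdiv m N β γ hN (fun q => conj (φ q) * ψ q)
    ((land_conj_contDiffOn hφ).mul hψ) (by
      intro a b hab p hp
      simp only
      rw [hφi a b hab p hp, hψi a b hab p hp]) u hu e
  rw [← h]
  refine integral_congr_ae (Filter.Eventually.of_forall fun x => ?_)
  simp only
  have := land_fderiv_prod hφ hψ (land_cellpt_mem β hN.im x hu)
    (-hin e (cellpt β γ x u).2, e)
  exact this.symm

/-- Landau levels -/
theorem land_real (hdiv : ST_DIV) {N : Q → E m → Prop} {β : Fin (4 * m) → E m}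
    {γ : Fin 3 → Q}
    (hN : Cusp N β γ) {φ : Pt m → ℂ} (hφ : ContDiffOn ℝ 2 φ (SD m)) (hi : Per N φ) (s : ℝ)
    (hs : 0 ≤ s) (e e' : E m)
    (hz : ∀ p ∈ SD m, pd (hin e e' - hin e' e, 0) φ p
      = -2 * (((2 * Real.pi * s : ℝ) : ℂ) * Complex.I * φ p)) {u : ℝ} (hu : 0 < u) :
    4 * Real.pi * s *
        ∫ x in Icc (0 : (Fin (4 * m) → ℝ) × (Fin 3 → ℝ)) 1, ‖φ (cellpt β γ x u)‖ ^ 2
      ≤ ∫ x in Icc (0 : (Fin (4 * m) → ℝ) × (Fin 3 → ℝ)) 1,
        (‖XX e φ (cellpt β γ x u)‖ ^ 2 + ‖XX e' φ (cellpt β γ x u)‖ ^ 2) := by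
  have hφ1 : ContDiffOn ℝ 1 φ (SD m) := hφ.of_le (by norm_num)
  have px := land_parts hdiv hN hφ1 hi (land_c1_xx hφ e') (land_per_xx hN hφ1 hi e') hu e
  have py := land_parts hdiv hN hφ1 hi (land_c1_xx hφ e) (land_per_xx hN hφ1 hi e) hu e'
  have cφ := land_continuous_lf β hN.im hu hφ1.continuousOn
  have cX := land_continuous_lf β hN.im hu (land_c0_xx hφ1 e)
  have cY := land_continuous_lf β hN.im hu (land_c0_xx hφ1 e')
  have cXY := land_continuous_lf β hN.im hu (land_c0_xx (land_c1_xx hφ e') e)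
  have cYX := land_continuous_lf β hN.im hu (land_c0_xx (land_c1_xx hφ e) e')
  set f := fun x : (Fin (4 * m) → ℝ) × (Fin 3 → ℝ) => φ (cellpt β γ x u) with hf
  set X := fun x : (Fin (4 * m) → ℝ) × (Fin 3 → ℝ) => XX e φ (cellpt β γ x u) with hX
  set Y := fun x : (Fin (4 * m) → ℝ) × (Fin 3 → ℝ) => XX e' φ (cellpt β γ x u) with hY
  set XY := fun x : (Fin (4 * m) → ℝ) × (Fin 3 → ℝ) => XX e (XX e' φ) (cellpt β γ x u) with hXY
  set YX := fun x : (Fin (4 * m) → ℝ) × (Fin 3 → ℝ) => XX e' (XX e φ) (cellpt β γ x u) with hYX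
  have hint : ∀ {G : (Fin (4 * m) → ℝ) × (Fin 3 → ℝ) → ℂ}, Continuous G →
      IntegrableOn G (Icc (0 : (Fin (4 * m) → ℝ) × (Fin 3 → ℝ)) 1) volume :=
    fun hG => hG.continuousOn.integrableOn_compact isCompact_Icc
  have hint' : ∀ {G : (Fin (4 * m) → ℝ) × (Fin 3 → ℝ) → ℝ}, Continuous G →
      IntegrableOn G (Icc (0 : (Fin (4 * m) → ℝ) × (Fin 3 → ℝ)) 1) volume :=
    fun hG => hG.continuousOn.integrableOn_compact isCompact_Icc
  have i1 : IntegrableOn (fun x => conj (X x) * Y x + conj (f x) * XY x)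
      (Icc (0 : (Fin (4 * m) → ℝ) × (Fin 3 → ℝ)) 1) volume := by
    apply hint
    fun_prop
  have i2 : IntegrableOn (fun x => conj (Y x) * X x + conj (f x) * YX x)
      (Icc (0 : (Fin (4 * m) → ℝ) × (Fin 3 → ℝ)) 1) volume := by
    apply hint
    fun_prop
  set κ : ℂ := ((2 * Real.pi * s : ℝ) : ℂ) * Complex.I with hκ
  have hcomm : ∀ x, XY x - YX x = -2 * (κ * f x) := by
    intro x
    have h1 := land_commutator hφ (land_cellpt_mem β hN.im x hu) e e'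
    rw [hz _ (land_cellpt_mem β hN.im x hu)] at h1
    exact h1
  have h1 : ∫ x in Icc (0 : (Fin (4 * m) → ℝ) × (Fin 3 → ℝ)) 1,
      (conj (X x) * Y x - conj (Y x) * X x) =
      (2 * κ) * ((∫ x in Icc (0 : (Fin (4 * m) → ℝ) × (Fin 3 → ℝ)) 1, ‖f x‖ ^ 2 : ℝ) : ℂ) := by
    have h2 := integral_sub i1 i2
    rw [px, py, sub_zero] at h2
    have h3 : (fun x => (conj (X x) * Y x + conj (f x) * XY x) -
        (conj (Y x) * X x + conj (f x) * YX x)) = fun x =>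
        (conj (X x) * Y x - conj (Y x) * X x) - (2 * κ) * ((‖f x‖ ^ 2 : ℝ) : ℂ) := by
      funext x
      have h4 : ((‖f x‖ ^ 2 : ℝ) : ℂ) = conj (f x) * f x := by
        rw [Complex.conj_mul']
        push_cast
        rfl
      rw [h4]
      linear_combination (conj (f x)) * hcomm x
    rw [h3] at h2
    have i3 : IntegrableOn (fun x => conj (X x) * Y x - conj (Y x) * X x)
        (Icc (0 : (Fin (4 * m) → ℝ) × (Fin 3 → ℝ)) 1) volume := by
      apply hint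
      fun_prop
    have i4 : IntegrableOn (fun x => (2 * κ) * ((‖f x‖ ^ 2 : ℝ) : ℂ))
        (Icc (0 : (Fin (4 * m) → ℝ) × (Fin 3 → ℝ)) 1) volume := by
      apply hint
      fun_prop
    rw [integral_sub i3 i4, integral_const_mul, integral_complex_ofReal, sub_eq_zero] at h2
    exact h2
  have h5 : ‖∫ x in Icc (0 : (Fin (4 * m) → ℝ) × (Fin 3 → ℝ)) 1,
      (conj (X x) * Y x - conj (Y x) * X x)‖ ≤
      ∫ x in Icc (0 : (Fin (4 * m) → ℝ) × (Fin 3 → ℝ)) 1, (‖X x‖ ^ 2 + ‖Y x‖ ^ 2) := by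
    apply norm_integral_le_of_norm_le
    · apply hint'
      fun_prop
    · apply Filter.Eventually.of_forall
      intro x
      refine (norm_sub_le _ _).trans ?_
      rw [norm_mul, norm_mul, Complex.norm_conj, Complex.norm_conj]
      nlinarith [sq_nonneg (‖X x‖ - ‖Y x‖)]
  have hκn : ‖κ‖ = 2 * Real.pi * s := by
    rw [hκ, norm_mul, Complex.norm_I, mul_one, Complex.norm_real, Real.norm_eq_abs,
      abs_of_nonneg (by positivity)]
  rw [h1, norm_mul, norm_mul, hκn, Complex.norm_real,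
    Real.norm_eq_abs, abs_of_nonneg (integral_nonneg fun y => by positivity)] at h5
  have h6 : ‖(2 : ℂ)‖ = 2 := by norm_num
  rw [h6] at h5
  refine le_trans (le_of_eq ?_) h5
  ring

theorem land_cellInt (β : Fin (4 * m) → E m) (γ : Fin 3 → Q) {u : ℝ} {F : Pt m → ℝ}
    (hF : Continuous (fun x => F (cellpt β γ x u))) (h0 : ∀ p, 0 ≤ F p) :
    cellInt β γ (fun p => ENNReal.ofReal (F p)) u
      = ENNReal.ofReal (∫ x in Icc (0 : (Fin (4 * m) → ℝ) × (Fin 3 → ℝ)) 1,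
        F (cellpt β γ x u)) := by
  unfold cellInt
  rw [ofReal_integral_eq_lintegral_ofReal]
  · exact hF.continuousOn.integrableOn_compact isCompact_Icc
  · exact Filter.Eventually.of_forall fun x => h0 _

/-! ### The four directions -/

theorem land_ek_add (k : Fin m) (q q' : Q) : (ek k (q + q') : E m) = ek k q + ek k q' := by
  unfold ek
  exact PiLp.single_add 2 k

theorem land_ek_smul (k : Fin m) (c : ℝ) (q : Q) : (ek k (c • q) : E m) = c • ek k q := by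
  unfold ek
  refine PiLp.ext fun j => ?_
  rcases eq_or_ne j k with h | h
  · subst h
    simp
  · simp [h]

theorem land_hin_ek (k : Fin m) (q q' : Q) : hin (ek k q) (ek k q') = q * star q' := by
  unfold hin ek
  rw [Finset.sum_eq_single k]
  · simp
  · intro j _ hj
    simp [hj]
  · intro h
    exact absurd (Finset.mem_univ k) h

theorem land_q00 : (qu 0).re = 1 := rfl
theorem land_q01 : (qu 0).imI = 0 := rfl
theorem land_q02 : (qu 0).imJ = 0 := rfl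
theorem land_q03 : (qu 0).imK = 0 := rfl
theorem land_q10 : (qu 1).re = 0 := rfl
theorem land_q11 : (qu 1).imI = 1 := rfl
theorem land_q12 : (qu 1).imJ = 0 := rfl
theorem land_q13 : (qu 1).imK = 0 := rfl
theorem land_q20 : (qu 2).re = 0 := rfl
theorem land_q21 : (qu 2).imI = 0 := rfl
theorem land_q22 : (qu 2).imJ = 1 := rfl
theorem land_q23 : (qu 2).imK = 0 := rfl
theorem land_q30 : (qu 3).re = 0 := rfl
theorem land_q31 : (qu 3).imI = 0 := rfl
theorem land_q32 : (qu 3).imJ = 0 := rfl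
theorem land_q33 : (qu 3).imK = 1 := rfl

theorem land_q_ext (q : Q) : q = q.re • qu 0 + q.imI • qu 1 + q.imJ • qu 2 + q.imK • qu 3 := by
  refine Quaternion.ext _ _ ?_ ?_ ?_ ?_ <;>
    simp only [Quaternion.re_add, Quaternion.imI_add, Quaternion.imJ_add, Quaternion.imK_add,
      Quaternion.re_smul, Quaternion.imI_smul, Quaternion.imJ_smul, Quaternion.imK_smul,
      land_q00, land_q01, land_q02, land_q03, land_q10, land_q11,
      land_q12, land_q13, land_q20, land_q21, land_q22, land_q23, land_q30, land_q31, land_q32,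
      land_q33, smul_eq_mul] <;> ring

/-- real linearity in the direction -/
theorem land_XX_q (k : Fin m) (q : Q) (φ : Pt m → ℂ) (p : Pt m) :
    XX (ek k q) φ p = (q.re : ℂ) * XX (ek k (qu 0)) φ p + (q.imI : ℂ) * XX (ek k (qu 1)) φ p
      + (q.imJ : ℂ) * XX (ek k (qu 2)) φ p + (q.imK : ℂ) * XX (ek k (qu 3)) φ p := by
  conv_lhs => rw [land_q_ext q]
  rw [land_ek_add, land_ek_add, land_ek_add, land_ek_smul, land_ek_smul, land_ek_smul,
    land_ek_smul, XX_add, XX_add, XX_add, XX_smul, XX_smul, XX_smul, XX_smul]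
  simp only [Complex.real_smul]

theorem land_id (L0 L1 L2 L3 : ℂ) (a b c : ℝ) (h : a ^ 2 + b ^ 2 + c ^ 2 = 1) :
    ‖(a : ℂ) * L1 + (b : ℂ) * L2 + (c : ℂ) * L3‖ ^ 2
      + ‖-(a : ℂ) * L0 + (c : ℂ) * L2 - (b : ℂ) * L3‖ ^ 2
      + ‖-(b : ℂ) * L0 - (c : ℂ) * L1 + (a : ℂ) * L3‖ ^ 2
      + ‖-(c : ℂ) * L0 + (b : ℂ) * L1 - (a : ℂ) * L2‖ ^ 2
      = ‖L0‖ ^ 2 + ‖L1‖ ^ 2 + ‖L2‖ ^ 2 + ‖L3‖ ^ 2 := by
  simp only [← Complex.normSq_eq_norm_sq, Complex.normSq_apply]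
  simp
  linear_combination (L0.re ^ 2 + L0.im ^ 2 + L1.re ^ 2 + L1.im ^ 2 + L2.re ^ 2 + L2.im ^ 2
    + L3.re ^ 2 + L3.im ^ 2) * h

theorem land_rot (k : Fin m) (ω : Q) (h0 : ω.re = 0) (h1 : ‖ω‖ = 1) (φ : Pt m → ℂ) (p : Pt m) :
    ∑ r : Fin 4, ‖XX (ek k (ω * qu r)) φ p‖ ^ 2 = ∑ r : Fin 4, ‖XX (ek k (qu r)) φ p‖ ^ 2 := by
  have hn : ω.imI ^ 2 + ω.imJ ^ 2 + ω.imK ^ 2 = 1 := by
    have h2 := q_norm_sq ω
    rw [h1, h0] at h2
    linarith
  rw [Fin.sum_univ_four, Fin.sum_univ_four, land_XX_q k (ω * qu 0), land_XX_q k (ω * qu 1),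
    land_XX_q k (ω * qu 2), land_XX_q k (ω * qu 3)]
  rw [← land_id (XX (ek k (qu 0)) φ p) (XX (ek k (qu 1)) φ p) (XX (ek k (qu 2)) φ p)
    (XX (ek k (qu 3)) φ p) ω.imI ω.imJ ω.imK hn]
  have k0 : ((ω * qu 0).re = 0 ∧ (ω * qu 0).imI = ω.imI) ∧
      (ω * qu 0).imJ = ω.imJ ∧ (ω * qu 0).imK = ω.imK := by
    refine ⟨⟨?_, ?_⟩, ?_, ?_⟩ <;>
      simp only [Quaternion.re_mul, Quaternion.imI_mul, Quaternion.imJ_mul, Quaternion.imK_mul,
        land_q00, land_q01, land_q02, land_q03, h0] <;> ring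
  have k1 : ((ω * qu 1).re = -ω.imI ∧ (ω * qu 1).imI = 0) ∧
      (ω * qu 1).imJ = ω.imK ∧ (ω * qu 1).imK = -ω.imJ := by
    refine ⟨⟨?_, ?_⟩, ?_, ?_⟩ <;>
      simp only [Quaternion.re_mul, Quaternion.imI_mul, Quaternion.imJ_mul, Quaternion.imK_mul,
        land_q10, land_q11, land_q12, land_q13, h0] <;> ring
  have k2 : ((ω * qu 2).re = -ω.imJ ∧ (ω * qu 2).imI = -ω.imK) ∧
      (ω * qu 2).imJ = 0 ∧ (ω * qu 2).imK = ω.imI := by
    refine ⟨⟨?_, ?_⟩, ?_, ?_⟩ <;>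
      simp only [Quaternion.re_mul, Quaternion.imI_mul, Quaternion.imJ_mul, Quaternion.imK_mul,
        land_q20, land_q21, land_q22, land_q23, h0] <;> ring
  have k3 : ((ω * qu 3).re = -ω.imK ∧ (ω * qu 3).imI = ω.imJ) ∧
      (ω * qu 3).imJ = -ω.imI ∧ (ω * qu 3).imK = 0 := by
    refine ⟨⟨?_, ?_⟩, ?_, ?_⟩ <;>
      simp only [Quaternion.re_mul, Quaternion.imI_mul, Quaternion.imJ_mul, Quaternion.imK_mul,
        land_q30, land_q31, land_q32, land_q33, h0] <;> ring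
  rw [k0.1.1, k0.1.2, k0.2.1, k0.2.2, k1.1.1, k1.1.2, k1.2.1, k1.2.2, k2.1.1, k2.1.2, k2.2.1,
    k2.2.2, k3.1.1, k3.1.2, k3.2.1, k3.2.2]
  generalize XX (ek k (qu 0)) φ p = L0
  generalize XX (ek k (qu 1)) φ p = L1
  generalize XX (ek k (qu 2)) φ p = L2
  generalize XX (ek k (qu 3)) φ p = L3
  have j0 : ((0 : ℝ) : ℂ) * L0 + (ω.imI : ℂ) * L1 + (ω.imJ : ℂ) * L2 + (ω.imK : ℂ) * L3
      = (ω.imI : ℂ) * L1 + (ω.imJ : ℂ) * L2 + (ω.imK : ℂ) * L3 := by
    push_cast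
    ring
  have j1 : ((-ω.imI : ℝ) : ℂ) * L0 + ((0 : ℝ) : ℂ) * L1 + (ω.imK : ℂ) * L2
      + ((-ω.imJ : ℝ) : ℂ) * L3
      = -(ω.imI : ℂ) * L0 + (ω.imK : ℂ) * L2 - (ω.imJ : ℂ) * L3 := by
    push_cast
    ring
  have j2 : ((-ω.imJ : ℝ) : ℂ) * L0 + ((-ω.imK : ℝ) : ℂ) * L1 + ((0 : ℝ) : ℂ) * L2
      + (ω.imI : ℂ) * L3
      = -(ω.imJ : ℂ) * L0 - (ω.imK : ℂ) * L1 + (ω.imI : ℂ) * L3 := by
    push_cast
    ring
  have j3 : ((-ω.imK : ℝ) : ℂ) * L0 + (ω.imJ : ℂ) * L1 + ((-ω.imI : ℝ) : ℂ) * L2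
      + ((0 : ℝ) : ℂ) * L3
      = -(ω.imK : ℂ) * L0 + (ω.imJ : ℂ) * L1 - (ω.imI : ℂ) * L2 := by
    push_cast
    ring
  rw [j0, j1, j2, j3]

theorem st_LAND (hdiv : ST_DIV) : ST_LAND := by
  intro m N β γ hN φ hφ hi ξ hξ0 hz u hu k
  have hφ1 : ContDiffOn ℝ 1 φ (SD m) := hφ.of_le (by norm_num)
  have cφ := land_continuous_lf β hN.im hu hφ1.continuousOn
  have cX := fun e : E m => land_continuous_lf β hN.im hu (land_c0_xx hφ1 e)
  rcases eq_or_ne ξ 0 with h0 | h0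
  · rw [h0, norm_zero, mul_zero, ENNReal.ofReal_zero, zero_mul]
    exact bot_le
  have hξ : 0 < ‖ξ‖ := norm_pos_iff.2 h0
  set ω : Q := ‖ξ‖⁻¹ • ξ with hω
  have hω0 : ω.re = 0 := by
    rw [hω, Quaternion.re_smul, hξ0, smul_zero]
  have hω1 : ‖ω‖ = 1 := by
    rw [hω, norm_smul, norm_inv, norm_norm, inv_mul_cancel₀ hξ.ne']
  have hωs : star ω = -ω := by
    refine Quaternion.ext _ _ ?_ ?_ ?_ ?_ <;> simp [hω0]
  have hin1 : inner ℝ ξ ω = ‖ξ‖ := by
    rw [hω, inner_smul_right, real_inner_self_eq_norm_sq]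
    field_simp
  have hqu : ∀ r : Fin 4, qu r * star (qu r) = 1 := by
    intro r
    rw [Quaternion.self_mul_star, Quaternion.normSq_def']
    have h2 : (qu r).re ^ 2 + (qu r).imI ^ 2 + (qu r).imJ ^ 2 + (qu r).imK ^ 2 = 1 := by
      fin_cases r
      · change (1 : ℝ) ^ 2 + (0 : ℝ) ^ 2 + (0 : ℝ) ^ 2 + (0 : ℝ) ^ 2 = 1
        norm_num
      · change (0 : ℝ) ^ 2 + (1 : ℝ) ^ 2 + (0 : ℝ) ^ 2 + (0 : ℝ) ^ 2 = 1
        norm_num
      · change (0 : ℝ) ^ 2 + (0 : ℝ) ^ 2 + (1 : ℝ) ^ 2 + (0 : ℝ) ^ 2 = 1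
        norm_num
      · change (0 : ℝ) ^ 2 + (0 : ℝ) ^ 2 + (0 : ℝ) ^ 2 + (1 : ℝ) ^ 2 = 1
        norm_num
    rw [h2]
    rfl
  have hdir : ∀ r : Fin 4, hin (ek k (qu r) : E m) (ek k (ω * qu r))
      - hin (ek k (ω * qu r)) (ek k (qu r) : E m) = (-2 : ℝ) • ω := by
    intro r
    rw [land_hin_ek, land_hin_ek, star_mul, ← mul_assoc, hqu, one_mul, hωs, mul_assoc, hqu,
      mul_one]
    rw [neg_smul, two_smul]
    abel
  have hreal : ∀ r : Fin 4, 4 * Real.pi * ‖ξ‖ *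
        ∫ x in Icc (0 : (Fin (4 * m) → ℝ) × (Fin 3 → ℝ)) 1, ‖φ (cellpt β γ x u)‖ ^ 2
      ≤ ∫ x in Icc (0 : (Fin (4 * m) → ℝ) × (Fin 3 → ℝ)) 1,
        (‖XX (ek k (qu r)) φ (cellpt β γ x u)‖ ^ 2
          + ‖XX (ek k (ω * qu r)) φ (cellpt β γ x u)‖ ^ 2) := by
    intro r
    refine land_real hdiv hN hφ hi ‖ξ‖ hξ.le (ek k (qu r)) (ek k (ω * qu r)) ?_ hu
    intro p hp
    rw [hdir r]
    have h3 := hz ω hω0 p hp
    rw [hin1] at h3
    rw [← h3]
    unfold pd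
    have h4 : (((-2 : ℝ) • ω, 0) : Pt m) = (-2 : ℝ) • ((ω, 0) : Pt m) := by
      refine Prod.ext rfl ?_
      change (0 : E m) = (-2 : ℝ) • 0
      rw [smul_zero]
    rw [h4, map_smul, Complex.real_smul]
    norm_num
  have hsum : 4 * (4 * Real.pi * ‖ξ‖ *
        ∫ x in Icc (0 : (Fin (4 * m) → ℝ) × (Fin 3 → ℝ)) 1, ‖φ (cellpt β γ x u)‖ ^ 2)
      ≤ ∫ x in Icc (0 : (Fin (4 * m) → ℝ) × (Fin 3 → ℝ)) 1,
        (2 * ∑ r : Fin 4, ‖XX (ek k (qu r)) φ (cellpt β γ x u)‖ ^ 2) := by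
    have h3 : ∀ x : (Fin (4 * m) → ℝ) × (Fin 3 → ℝ),
        2 * ∑ r : Fin 4, ‖XX (ek k (qu r)) φ (cellpt β γ x u)‖ ^ 2
        = ∑ r : Fin 4, (‖XX (ek k (qu r)) φ (cellpt β γ x u)‖ ^ 2
          + ‖XX (ek k (ω * qu r)) φ (cellpt β γ x u)‖ ^ 2) := by
      intro x
      rw [Finset.sum_add_distrib, land_rot k ω hω0 hω1 φ (cellpt β γ x u), two_mul]
    simp only [h3]
    rw [integral_finsetSum]
    · calc 4 * (4 * Real.pi * ‖ξ‖ *
          ∫ x in Icc (0 : (Fin (4 * m) → ℝ) × (Fin 3 → ℝ)) 1, ‖φ (cellpt β γ x u)‖ ^ 2)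
          = ∑ r : Fin 4, 4 * Real.pi * ‖ξ‖ *
          ∫ x in Icc (0 : (Fin (4 * m) → ℝ) × (Fin 3 → ℝ)) 1, ‖φ (cellpt β γ x u)‖ ^ 2 := by
            rw [Finset.sum_const, Finset.card_univ, Fintype.card_fin, nsmul_eq_mul]
            norm_num
        _ ≤ _ := Finset.sum_le_sum fun r _ => hreal r
    · intro r _
      have h4 : Continuous (fun x => ‖XX (ek k (qu r)) φ (cellpt β γ x u)‖ ^ 2
          + ‖XX (ek k (ω * qu r)) φ (cellpt β γ x u)‖ ^ 2) :=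
        ((cX (ek k (qu r))).norm.pow 2).add ((cX (ek k (ω * qu r))).norm.pow 2)
      exact h4.continuousOn.integrableOn_compact isCompact_Icc
  rw [integral_const_mul] at hsum
  have hcS : Continuous (fun x => ∑ r : Fin 4, ‖XX (ek k (qu r)) φ (cellpt β γ x u)‖ ^ 2) :=
    continuous_finsetSum _ fun r _ => (cX (ek k (qu r))).norm.pow 2
  rw [land_cellInt β γ (F := fun p => ‖φ p‖ ^ 2) (cφ.norm.pow 2) (fun p => by positivity),
    land_cellInt β γ (F := fun p => ∑ r : Fin 4, ‖XX (ek k (qu r)) φ p‖ ^ 2)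
      hcS (fun p => Finset.sum_nonneg fun r _ => by positivity),
    ← ENNReal.ofReal_mul (by positivity)]
  refine ENNReal.ofReal_le_ofReal ?_
  linarith

end

end Pool.Agent.Helper19.Qh
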